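import Mathlib
import Pool.Agent.Lib.helper21.Queue

set_option autoImplicit false

/-! Post correspondence instances simulating a deterministic queue automaton. -/

namespace Pool.Agent.H.MP_d7c5de_lc

open List Pool.Agent.Lib.helper21.Queue

def Cmp {B : Type} (u v : List B) : Prop := u <+: v ∨ v <+: u

theorem cmp_cons {B : Type} (x y : B) (u v : List B) :
    Cmp (x :: u) (y :: v) ↔ x = y ∧ Cmp u v := by
  simp only [Cmp, cons_prefix_cons]
  constructor
  · rintro (⟨h, h'⟩ | ⟨h, h'⟩)
    · exact ⟨h, Or.inl h'⟩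
    · exact ⟨h.symm, Or.inr h'⟩
  · rintro ⟨h, h' | h'⟩
    · exact Or.inl ⟨h, h'⟩
    · exact Or.inr ⟨h.symm, h'⟩

theorem Cmp.left {B : Type} {u u' v v' : List B} (h : Cmp (u ++ u') (v ++ v')) : Cmp u v := by
  rcases h with h | h
  · exact prefix_or_prefix_of_prefix ((prefix_append _ _).trans h) (prefix_append _ _)
  · exact prefix_or_prefix_of_prefix (prefix_append _ _) ((prefix_append _ _).trans h)

def UEC {A B : Type} (h g : A → List B) : Prop :=
  ∀ (u : List A) (a b : A), a ≠ b → Cmp ((u ++ [a]).flatMap h) ((u ++ [a]).flatMap g) →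
    Cmp ((u ++ [b]).flatMap h) ((u ++ [b]).flatMap g) → u.flatMap h = u.flatMap g

def Sol {A B : Type} (h g : A → List B) : Prop := ∃ x : List A, x ≠ [] ∧ x.flatMap h = x.flatMap g

inductive B (Q S : Type) | star | hash | dollar | sym (x : S) | hd (o : Option Q)

inductive A (Q S J : Type) | start | stop (j : J) | copy (x : S) | rule (q : Q) (x : S)

open B A

variable {Q S J : Type} (δ : Q → S → Option Q × List S) (q₀ : Q) (t₀ : List S)

def L (w : List (B Q S)) : List (B Q S) := w.flatMap fun y => [star, y]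
def R (w : List (B Q S)) : List (B Q S) := w.flatMap fun y => [y, star]

theorem LR (r : List (B Q S)) : star :: R r = L r ++ [star] := by
  induction r with
  | nil => rfl
  | cons y r ih => simp only [R, L, flatMap_cons, cons_append, nil_append] at ih ⊢; rw [ih]

def hh : A Q S J → List (B Q S)
  | start => [star, hash]
  | stop _ => [star, hd none, star, dollar]
  | copy x => [star, sym x]
  | rule q x => [star, hd (some q), star, sym x]

def gg : A Q S J → List (B Q S)
  | start => star :: hash :: star :: R (hd (some q₀) :: t₀.map sym)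
  | stop _ => [dollar]
  | copy x => [sym x, star]
  | rule q x => R ((δ q x).2.map sym ++ [hd (δ q x).1])

def W (t₂ : List S) (o : Option Q) (t₁ : List S) : List (B Q S) :=
  L (t₂.map sym ++ hd o :: t₁.map sym) ++ [star]

def Good (w : List (B Q S)) : Prop :=
  w = [] ∨ ∃ t₂ o t₁, Reach δ (some q₀, t₀) (o, t₁ ++ t₂) ∧ w = W t₂ o t₁

def kind : A Q S J → A Q S Unit
  | start => start
  | stop _ => stop ()
  | copy x => copy x
  | rule q x => rule q x

def N : List (B Q S) → A Q S Unit
  | [] => start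
  | _ :: sym x :: _ => copy x
  | _ :: hd (some q) :: _ :: sym x :: _ => rule q x
  | _ => stop ()

theorem e_start : gg δ q₀ t₀ (start : A Q S J) = hh (start : A Q S J) ++ W [] (some q₀) t₀ := by
  simp only [gg, hh, LR, W]; rfl

theorem e_copy (x : S) (t₂ o t₁) : W (x :: t₂) o t₁ ++ gg δ q₀ t₀ (copy x : A Q S J) =
    hh (copy x : A Q S J) ++ W t₂ o (t₁ ++ [x]) := by
  simp [gg, hh, W, L]

theorem e_rule (q : Q) (x : S) (t) : W [] (some q) (x :: t) ++ gg δ q₀ t₀ (rule q x : A Q S J) =
    hh (rule q x : A Q S J) ++ W (t ++ (δ q x).2) (δ q x).1 [] := by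
  simp only [gg, hh, W, append_assoc, singleton_append, LR]
  simp [L]

theorem e_stop (j : J) : W [] none [] ++ gg δ q₀ t₀ (stop j : A Q S J) = hh (stop j : A Q S J) :=
  rfl

variable (hI : ∀ c, Reach δ (some q₀, t₀) c → (∃ q x t, c = (some q, x :: t)) ∨ c = (none, []))
include hI

theorem key {w : List (B Q S)} (hw : Good δ q₀ t₀ w) (a : A Q S J)
    (hc : Cmp (hh a) (w ++ gg δ q₀ t₀ a)) :
    (∃ w', Good δ q₀ t₀ w' ∧ w ++ gg δ q₀ t₀ a = hh a ++ w' ∧
      (w' = [] → Reach δ (some q₀, t₀) (none, []))) ∧ kind a = N w ∧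
      (kind a = stop () → Reach δ (some q₀, t₀) (none, [])) := by
  have hW : ∀ (t₂ : List S) (o : Option Q) t₁, W t₂ o t₁ ≠ [] := by simp [W]
  rcases hw with rfl | ⟨_ | ⟨x, t₂⟩, o, t₁, hr, rfl⟩
  · cases a with
    | start =>
      exact ⟨⟨_, Or.inr ⟨[], _, t₀, by simpa using .refl, rfl⟩, e_start δ q₀ t₀,
        fun h => (hW _ _ _ h).elim⟩, rfl, fun h => by cases h⟩
    | stop j => simp [hh, gg, cmp_cons] at hc
    | copy x => simp [hh, gg, cmp_cons] at hc
    | rule q x =>
      simp only [hh, gg, nil_append] at hc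
      generalize (δ q x).2 = l at hc
      cases l <;> simp [R, cmp_cons] at hc
  · rw [append_nil] at hr
    rcases hI _ hr with ⟨q, x, t, h⟩ | h <;> cases h
    · have : kind a = rule q x := by
        cases a <;> simp [hh, W, L, cmp_cons] at hc
        simp [kind, hc]
      obtain rfl : a = rule q x := by cases a <;> cases this; rfl
      exact ⟨⟨_, Or.inr ⟨_, _, [], hr.tail (by simp [qstep]), rfl⟩, e_rule δ q₀ t₀ q x t,
        fun h => (hW _ _ _ h).elim⟩, rfl, fun h => by cases h⟩
    · have : kind a = stop () := by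
        cases a <;> simp [hh, W, L, cmp_cons] at hc
        rfl
      obtain ⟨j, rfl⟩ : ∃ j, a = stop j := by cases a <;> cases this; exact ⟨_, rfl⟩
      exact ⟨⟨[], Or.inl rfl, by simp [e_stop], fun _ => hr⟩, rfl, fun _ => hr⟩
  · have : kind a = copy x := by
      cases a <;> simp [hh, W, L, cmp_cons] at hc
      simp [kind, hc]
    obtain rfl : a = copy x := by cases a <;> cases this; rfl
    exact ⟨⟨_, Or.inr ⟨_, _, t₁ ++ [x], by simpa using hr, rfl⟩, e_copy δ q₀ t₀ x t₂ o t₁,
      fun h => (hW _ _ _ h).elim⟩, rfl, fun h => by cases h⟩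

theorem ovf (u : List (A Q S J)) (hc : Cmp (u.flatMap hh) (u.flatMap (gg δ q₀ t₀))) :
    ∃ w, Good δ q₀ t₀ w ∧ u.flatMap (gg δ q₀ t₀) = u.flatMap hh ++ w ∧
      (u ≠ [] → w = [] → Reach δ (some q₀, t₀) (none, [])) := by
  induction u using List.reverseRecOn with
  | nil => exact ⟨[], Or.inl rfl, rfl, fun h => (h rfl).elim⟩
  | append_singleton u a ih =>
    simp only [flatMap_append, flatMap_singleton] at hc ⊢
    obtain ⟨w, h1, h2, -⟩ := ih hc.left
    rw [h2, append_assoc] at hc ⊢
    obtain ⟨⟨w', h3, h4, h5⟩, -⟩ := key δ q₀ t₀ hI h1 a (by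
      simpa only [Cmp, prefix_append_right_inj] using hc)
    exact ⟨w', h3, by rw [h4, append_assoc], fun _ => h5⟩

theorem two (u : List (A Q S J)) (a b : A Q S J)
    (ha : Cmp ((u ++ [a]).flatMap hh) ((u ++ [a]).flatMap (gg δ q₀ t₀)))
    (hb : Cmp ((u ++ [b]).flatMap hh) ((u ++ [b]).flatMap (gg δ q₀ t₀))) :
    kind a = kind b ∧ (kind a = stop () → Reach δ (some q₀, t₀) (none, [])) := by
  simp only [flatMap_append, flatMap_singleton] at ha hb
  obtain ⟨w, h1, h2, -⟩ := ovf δ q₀ t₀ hI u ha.left
  rw [h2, append_assoc] at ha hb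
  have h3 := (key δ q₀ t₀ hI h1 a (by simpa only [Cmp, prefix_append_right_inj] using ha)).2
  have h4 := (key δ q₀ t₀ hI h1 b (by simpa only [Cmp, prefix_append_right_inj] using hb)).2
  exact ⟨h3.1.trans h4.1.symm, h3.2⟩

omit hI

theorem reach_word {c} (h : Reach δ (some q₀, t₀) c) :
    ∃ u : List (A Q S J), u.flatMap (gg δ q₀ t₀) = u.flatMap hh ++ W [] c.1 c.2 := by
  have rot : ∀ (t₂ : List S) o t₁ (u : List (A Q S J)),
      u.flatMap (gg δ q₀ t₀) = u.flatMap hh ++ W t₂ o t₁ →
      ∃ u : List (A Q S J), u.flatMap (gg δ q₀ t₀) = u.flatMap hh ++ W [] o (t₁ ++ t₂) := by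
    intro t₂
    induction t₂ with
    | nil => intro o t₁ u h; exact ⟨u, by simpa using h⟩
    | cons x t₂ ih =>
      intro o t₁ u h
      have := ih o (t₁ ++ [x]) (u ++ [copy x]) (by
        simp only [flatMap_append, flatMap_singleton, h, append_assoc, e_copy])
      simpa using this
  induction h with
  | refl => exact ⟨[start], by simp [e_start]⟩
  | @tail b c _ e ih =>
    obtain ⟨u, hu⟩ := ih
    rcases b with ⟨_ | q, _ | ⟨x, t⟩⟩ <;> cases e
    exact rot _ _ [] (u ++ [rule q x]) (by
      simp only [flatMap_append, flatMap_singleton, hu, append_assoc, e_rule]; rfl)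

include hI

theorem uec_unit : UEC (hh : A Q S Unit → _) (gg δ q₀ t₀) := by
  intro u a b hab ha hb
  have := (two δ q₀ t₀ hI u a b ha hb).1
  refine (hab ?_).elim
  cases a <;> cases b <;> first | rfl | exact this

theorem sol_iff : Sol (hh : A Q S Unit → _) (gg δ q₀ t₀) ↔ Reach δ (some q₀, t₀) (none, []) := by
  constructor
  · rintro ⟨x, h1, h2⟩
    obtain ⟨w, -, h3, h4⟩ := ovf δ q₀ t₀ hI x (Or.inl (h2 ▸ prefix_rfl))
    exact h4 h1 (by simpa [h2] using h3)
  · intro h
    obtain ⟨u, hu⟩ := reach_word (J := Unit) δ q₀ t₀ h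
    exact ⟨u ++ [stop ()], by simp, by
      simp only [flatMap_append, flatMap_singleton, hu, append_assoc, e_stop]⟩

theorem uec_iff :
    UEC (hh : A Q S Bool → _) (gg δ q₀ t₀) ↔ ¬ Reach δ (some q₀, t₀) (none, []) := by
  constructor
  · intro h hr
    obtain ⟨u, hu⟩ := reach_word (J := Bool) δ q₀ t₀ hr
    have := h u (stop true) (stop false) (by simp) (Or.inl ?_) (Or.inl ?_)
    · rw [hu] at this
      simp [W] at this
    all_goals
      simp only [flatMap_append, flatMap_singleton, hu, append_assoc, e_stop]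
      exact prefix_rfl
  · intro h u a b hab ha hb
    obtain ⟨h1, h2⟩ := two δ q₀ t₀ hI u a b ha hb
    refine (hab ?_).elim
    cases a <;> cases b <;> first | rfl | exact (h (h2 rfl)).elim | cases h1
    all_goals rfl

omit hI

/-! ### numerical coding -/

section
variable {α β : Type} {k : ℕ} (e : α ≃ Fin k) (c : β → ℕ)

def code (h : α → List β) : List (List ℕ) := ofFn fun i => (h (e.symm i)).map c

theorem code_length (h : α → List β) : (code e c h).length = k := by simp [code]

theorem code_flat (h : α → List β) (u : List α) :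
    (u.map fun a => (e a).val).flatMap (fun i => (code e c h).getD i []) = (u.flatMap h).map c := by
  induction u with
  | nil => rfl
  | cons a u ih => simp only [map_cons, flatMap_cons, ih, map_append]; simp [code]

theorem decode (u : List ℕ) (hu : ∀ i ∈ u, i < k) : ∃ v : List α, u = v.map fun a => (e a).val := by
  induction u with
  | nil => exact ⟨[], rfl⟩
  | cons i u ih =>
    obtain ⟨v, rfl⟩ := ih fun j hj => hu j (mem_cons_of_mem _ hj)
    exact ⟨e.symm ⟨i, hu i mem_cons_self⟩ :: v, by simp⟩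

def UEC' (H G : List (List ℕ)) : Prop :=
  ∀ u : List ℕ, (∀ i ∈ u, i < H.length) → ∀ a b : ℕ, a < H.length → b < H.length → a ≠ b →
    Cmp ((u ++ [a]).flatMap fun i => H.getD i []) ((u ++ [a]).flatMap fun i => G.getD i []) →
    Cmp ((u ++ [b]).flatMap fun i => H.getD i []) ((u ++ [b]).flatMap fun i => G.getD i []) →
    u.flatMap (fun i => H.getD i []) = u.flatMap (fun i => G.getD i [])

def Sol' (H G : List (List ℕ)) : Prop :=
  ∃ x : List ℕ, x ≠ [] ∧ (∀ i ∈ x, i < H.length) ∧
    x.flatMap (fun i => H.getD i []) = x.flatMap (fun i => G.getD i [])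

variable (hc : Function.Injective c)
include hc

theorem cmp_map (u v : List β) : Cmp (u.map c) (v.map c) ↔ Cmp u v := by
  simp only [Cmp, prefix_map_iff_of_injective hc]

theorem uec_code (h g : α → List β) : UEC' (code e c h) (code e c g) ↔ UEC h g := by
  have hs : ∀ (u : List α) (a : α), (u.map fun a => (e a).val) ++ [(e a).val] =
      (u ++ [a]).map fun a => (e a).val := by simp
  constructor
  · intro H u a b hab ha hb
    have := H (u.map fun a => (e a).val) (by simp [code]) (e a) (e b) (by simp [code])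
      (by simp [code]) (fun h => hab (e.injective (Fin.ext h)))
    simp only [hs, code_flat, cmp_map c hc, map_inj_right hc] at this
    exact this ha hb
  · intro H u hu a b ha hb hab
    rw [code_length] at hu ha hb
    obtain ⟨v, rfl⟩ := decode e u hu
    obtain ⟨a, rfl⟩ : ∃ a', (e a').val = a := ⟨e.symm ⟨a, ha⟩, by simp⟩
    obtain ⟨b, rfl⟩ : ∃ b', (e b').val = b := ⟨e.symm ⟨b, hb⟩, by simp⟩
    simp only [hs, code_flat, cmp_map c hc, map_inj_right hc]
    exact H v a b fun h => hab (by rw [h])

theorem sol_code (h g : α → List β) : Sol' (code e c h) (code e c g) ↔ Sol h g := by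
  constructor
  · rintro ⟨u, h1, hu, h2⟩
    rw [code_length] at hu
    obtain ⟨v, rfl⟩ := decode e u hu
    simp only [code_flat, map_inj_right hc] at h2
    exact ⟨v, fun h => h1 (by simp [h]), h2⟩
  · rintro ⟨v, h1, h2⟩
    exact ⟨v.map fun a => (e a).val, by simpa using h1, by simp [code],
      by simp only [code_flat, h2]⟩

end

instance [Finite Q] [Finite S] : Finite (B Q S) :=
  Finite.of_surjective (fun z : Fin 3 ⊕ S ⊕ Option Q =>
    (match z with
      | .inl i => ![star, hash, dollar] i
      | .inr (.inl x) => sym x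
      | .inr (.inr o) => hd o : B Q S)) (by
    rintro (_ | _ | _ | x | o)
    exacts [⟨.inl 0, rfl⟩, ⟨.inl 1, rfl⟩, ⟨.inl 2, rfl⟩, ⟨.inr (.inl x), rfl⟩,
      ⟨.inr (.inr o), rfl⟩])

instance [Finite Q] [Finite S] [Finite J] : Finite (A Q S J) :=
  Finite.of_surjective (fun z : (Option J) ⊕ S ⊕ Q × S =>
    (match z with
      | .inl none => start
      | .inl (some j) => stop j
      | .inr (.inl x) => copy x
      | .inr (.inr p) => rule p.1 p.2 : A Q S J)) (by
    rintro (_ | j | x | ⟨q, x⟩)
    exacts [⟨.inl none, rfl⟩, ⟨.inl (some j), rfl⟩, ⟨.inr (.inl x), rfl⟩,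
      ⟨.inr (.inr (q, x)), rfl⟩])

theorem prim_code {k : ℕ} (e : A Q S J ≃ Fin k) (c : B Q S → ℕ) (a z : S) :
    Primrec fun n => code e c (gg δ q₀ (replicate n a ++ [z])) := by
  refine Primrec.list_ofFn fun i => ?_
  cases e.symm i with
  | start =>
    have : Primrec fun n : ℕ => (range n).flatMap fun _ => [c (sym a), c star] :=
      Primrec.list_flatMap Primrec.list_range (Primrec.const _).to₂
    refine (Primrec.list_append.comp (Primrec.const
      [c star, c hash, c star, c (hd (some q₀)), c star]) (Primrec.list_append.comp this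
      (Primrec.const [c (sym z), c star]))).of_eq fun n => ?_
    simp only [gg, R, map_append, map_replicate, flatMap_cons, flatMap_append, map_cons,
      cons_append, nil_append, map_nil, flatMap_nil, append_nil, cons.injEq, true_and,
      append_cancel_right_eq]
    induction n with
    | zero => rfl
    | succ n ih => rw [range_succ_eq_map, replicate_succ]; simp [flatMap_map, ← ih]
  | stop j => exact Primrec.const _
  | copy x => exact Primrec.const _
  | rule q x => exact Primrec.const ((gg δ q₀ [] (rule q x : A Q S J)).map c)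

theorem undec_sol : ∃ (H : List (List ℕ)) (G : ℕ → List (List ℕ)), Primrec G ∧
    (∀ n, H.length = (G n).length ∧ UEC' H (G n)) ∧ ¬ ComputablePred fun n => Sol' H (G n) := by
  obtain ⟨Q, S, _, _, δ, q₀, a, z, h1, h2⟩ := exists_qa
  let e := Finite.equivFin (A Q S Unit)
  obtain ⟨c, hc⟩ := exists_injective_nat (B Q S)
  refine ⟨code e c hh, _, prim_code δ q₀ e c a z, fun n => ⟨by simp only [code_length],
    (uec_code e c hc _ _).2 (uec_unit δ q₀ _ (h1 n))⟩, fun h => h2 (h.of_eq fun n => ?_)⟩
  rw [sol_code e c hc, sol_iff δ q₀ _ (h1 n)]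

theorem undec_uec : ∃ (H : List (List ℕ)) (G : ℕ → List (List ℕ)), Primrec G ∧
    (∀ n, H.length = (G n).length) ∧ ¬ ComputablePred fun n => UEC' H (G n) := by
  obtain ⟨Q, S, _, _, δ, q₀, a, z, h1, h2⟩ := exists_qa
  let e := Finite.equivFin (A Q S Bool)
  obtain ⟨c, hc⟩ := exists_injective_nat (B Q S)
  refine ⟨code e c hh, _, prim_code δ q₀ e c a z, fun n => by simp only [code_length],
    fun h => h2 (h.not.of_eq fun n => ?_)⟩
  rw [uec_code e c hc, uec_iff δ q₀ _ (h1 n), not_not]

end Pool.Agent.H.MP_d7c5de_lc
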